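import Mathlib

/-!
# Fourier decay bounds the mass of short intervals
-/

set_option autoImplicit false

open MeasureTheory Filter Topology Set
open scoped ENNReal NNReal

namespace Pool.Agent.X33.ST

theorem gauss_ft (b u : ℝ) (hb : 0 < b) :
    ∫ x : ℝ, Complex.exp (((x * u : ℝ) : ℂ) * Complex.I) * ((Real.exp (-b * x ^ 2) : ℝ) : ℂ)
      = ((Real.sqrt (Real.pi / b) * Real.exp (-u ^ 2 / (4 * b)) : ℝ) : ℂ) := by
  have h := fourierIntegral_gaussian (b := (b : ℂ)) (by simpa using hb) (u : ℂ)
  have h1 : ∀ x : ℝ, Complex.exp (((x * u : ℝ) : ℂ) * Complex.I) * ((Real.exp (-b * x ^ 2) : ℝ) : ℂ)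
      = Complex.exp (Complex.I * u * x) * Complex.exp (-(b : ℂ) * x ^ 2) := by
    intro x
    rw [Complex.ofReal_exp]
    congr 1
    · congr 1; push_cast; ring
    · congr 1; push_cast; ring
  simp_rw [h1]
  rw [h]
  have h2 : ((Real.pi : ℂ) / (b : ℂ)) ^ (1 / 2 : ℂ) = ((Real.sqrt (Real.pi / b) : ℝ) : ℂ) := by
    rw [Real.sqrt_eq_rpow, Complex.ofReal_cpow (by positivity)]
    push_cast
    rfl
  rw [h2, Complex.ofReal_mul]
  congr 1
  rw [Complex.ofReal_exp]
  congr 1
  push_cast
  ring

theorem mass_bound (ν : Measure ℝ) [IsProbabilityMeasure ν] (C : ℝ) (hC : 0 ≤ C)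
    (hdec : ∀ x : ℝ, 1 ≤ |x| →
      ‖∫ u, Complex.exp (((x * u : ℝ) : ℂ) * Complex.I) ∂ν‖ ≤ C * |x| ^ (-(1 : ℝ) / 4))
    (v ε R : ℝ) (hε : 0 < ε) (hR : 1 ≤ R) :
    ν.real {u | |u - v| ≤ ε} ≤ 4 * (R * ε + C * R ^ (-(1 : ℝ) / 4)) := by
  set b : ℝ := ε ^ 2 with hb
  have hbpos : 0 < b := by positivity
  set F : ℝ → ℂ := fun x => ∫ u, Complex.exp (((x * u : ℝ) : ℂ) * Complex.I) ∂ν with hF
  -- the Gaussian mean
  have hΘ : ∫ u, ((Real.sqrt (Real.pi / b) * Real.exp (-(u - v) ^ 2 / (4 * b)) : ℝ) : ℂ) ∂ν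
      = ∫ x : ℝ, Complex.exp (((-(x * v) : ℝ) : ℂ) * Complex.I) * ((Real.exp (-b * x ^ 2) : ℝ) : ℂ)
          * F x := by
    simp_rw [← gauss_ft b _ hbpos]
    rw [integral_integral_swap]
    · congr 1
      funext x
      rw [hF]
      simp only
      rw [← integral_const_mul]
      congr 1
      funext u
      have : Complex.exp (((x * (u - v) : ℝ) : ℂ) * Complex.I)
          = Complex.exp (((-(x * v) : ℝ) : ℂ) * Complex.I) * Complex.exp (((x * u : ℝ) : ℂ) * Complex.I) := by
        rw [← Complex.exp_add]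
        congr 1
        push_cast
        ring
      rw [this]
      ring
    · have hgi : Integrable (fun p : ℝ × ℝ => (1 : ℝ) * Real.exp (-b * p.2 ^ 2)) (ν.prod volume) :=
        (integrable_const (1 : ℝ)).mul_prod (integrable_exp_neg_mul_sq hbpos)
      refine Integrable.mono' hgi ?_ ?_
      · have : Continuous fun p : ℝ × ℝ => Complex.exp (((p.2 * (p.1 - v) : ℝ) : ℂ) * Complex.I)
            * ((Real.exp (-b * p.2 ^ 2) : ℝ) : ℂ) := by fun_prop
        exact this.aestronglyMeasurable
      · refine Eventually.of_forall fun p => ?_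
        simp only [Function.uncurry]
        rw [norm_mul, Complex.norm_exp_ofReal_mul_I, Complex.norm_real, Real.norm_eq_abs,
          abs_of_pos (Real.exp_pos _)]
  have hF1 : ∀ x, ‖F x‖ ≤ 1 := by
    intro x
    rw [hF]
    refine (norm_integral_le_integral_norm _).trans ?_
    simp_rw [Complex.norm_exp_ofReal_mul_I]
    simp
  have hRpow : 0 ≤ R ^ (-(1 : ℝ) / 4) := by positivity
  -- upper bound
  have hup : ‖∫ x : ℝ, Complex.exp (((-(x * v) : ℝ) : ℂ) * Complex.I)
      * ((Real.exp (-b * x ^ 2) : ℝ) : ℂ) * F x‖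
        ≤ 2 * R + C * R ^ (-(1 : ℝ) / 4) * Real.sqrt (Real.pi / b) := by
    have hbd : ∀ x : ℝ, ‖Complex.exp (((-(x * v) : ℝ) : ℂ) * Complex.I)
        * ((Real.exp (-b * x ^ 2) : ℝ) : ℂ) * F x‖
        ≤ (Icc (-R) R).indicator (fun _ => (1 : ℝ)) x
          + C * R ^ (-(1 : ℝ) / 4) * Real.exp (-b * x ^ 2) := by
      intro x
      rw [norm_mul, norm_mul, Complex.norm_exp_ofReal_mul_I, Complex.norm_real, Real.norm_eq_abs,
          abs_of_pos (Real.exp_pos _), one_mul]
      have he : Real.exp (-b * x ^ 2) ≤ 1 := by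
        rw [Real.exp_le_one_iff]; nlinarith [sq_nonneg x]
      have he0 := (Real.exp_pos (-b * x ^ 2)).le
      by_cases hx : x ∈ Icc (-R) R
      · rw [Set.indicator_of_mem hx]
        have h1 : Real.exp (-b * x ^ 2) * ‖F x‖ ≤ 1 * 1 :=
          mul_le_mul he (hF1 x) (norm_nonneg _) zero_le_one
        have h2 : 0 ≤ C * R ^ (-(1 : ℝ) / 4) * Real.exp (-b * x ^ 2) := by positivity
        linarith
      · rw [Set.indicator_of_notMem hx, zero_add]
        have hx' : R ≤ |x| := by
          by_contra hcon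
          push Not at hcon
          exact hx ⟨by linarith [neg_abs_le x], by linarith [le_abs_self x]⟩
        have h1 := hdec x (hR.trans hx')
        have h2 : |x| ^ (-(1 : ℝ) / 4) ≤ R ^ (-(1 : ℝ) / 4) :=
          Real.rpow_le_rpow_of_nonpos (by linarith) hx' (by norm_num)
        have h3 : ‖F x‖ ≤ C * R ^ (-(1 : ℝ) / 4) :=
          h1.trans (mul_le_mul_of_nonneg_left h2 hC)
        calc Real.exp (-b * x ^ 2) * ‖F x‖ ≤ Real.exp (-b * x ^ 2) * (C * R ^ (-(1 : ℝ) / 4)) :=
              mul_le_mul_of_nonneg_left h3 he0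
          _ = _ := by ring
    have hi1 : Integrable ((Icc (-R) R).indicator (fun _ => (1 : ℝ))) := by
      rw [integrable_indicator_iff measurableSet_Icc]
      exact integrableOn_const (by simp)
    have hi2 : Integrable (fun x : ℝ => C * R ^ (-(1 : ℝ) / 4) * Real.exp (-b * x ^ 2)) :=
      (integrable_exp_neg_mul_sq hbpos).const_mul _
    refine (norm_integral_le_of_norm_le (hi1.add hi2) (Eventually.of_forall hbd)).trans ?_
    have e1 : ∫ x, ((Icc (-R) R).indicator (fun _ => (1 : ℝ)) x
        + C * R ^ (-(1 : ℝ) / 4) * Real.exp (-b * x ^ 2))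
        = 2 * R + C * R ^ (-(1 : ℝ) / 4) * Real.sqrt (Real.pi / b) := by
      rw [integral_add hi1 hi2, integral_indicator measurableSet_Icc, integral_const_mul,
        integral_gaussian]
      congr 1
      simp [Measure.real, Real.volume_Icc]
      rw [ENNReal.toReal_ofReal (by linarith)]
      ring
    exact e1.le
  -- lower bound
  have hlow : Real.sqrt (Real.pi / b) * (3 / 4) * ν.real {u | |u - v| ≤ ε}
      ≤ ‖∫ u, ((Real.sqrt (Real.pi / b) * Real.exp (-(u - v) ^ 2 / (4 * b)) : ℝ) : ℂ) ∂ν‖ := by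
    rw [integral_complex_ofReal, Complex.norm_real, Real.norm_eq_abs]
    refine le_trans ?_ (le_abs_self _)
    have hms : MeasurableSet {u : ℝ | |u - v| ≤ ε} :=
      (isClosed_le (by fun_prop) continuous_const).measurableSet
    have hii : Integrable (fun u => Real.sqrt (Real.pi / b) * Real.exp (-(u - v) ^ 2 / (4 * b))) ν := by
      refine Integrable.mono' (integrable_const (Real.sqrt (Real.pi / b))) ?_ ?_
      · exact (by fun_prop : Continuous fun u =>
          Real.sqrt (Real.pi / b) * Real.exp (-(u - v) ^ 2 / (4 * b))).aestronglyMeasurable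
      · refine Eventually.of_forall fun u => ?_
        rw [Real.norm_eq_abs, abs_of_nonneg (by positivity)]
        have : Real.exp (-(u - v) ^ 2 / (4 * b)) ≤ 1 := by
          rw [Real.exp_le_one_iff]
          apply div_nonpos_of_nonpos_of_nonneg
          · nlinarith [sq_nonneg (u - v)]
          · positivity
        calc _ ≤ Real.sqrt (Real.pi / b) * 1 :=
              mul_le_mul_of_nonneg_left this (Real.sqrt_nonneg _)
          _ = _ := mul_one _
    calc Real.sqrt (Real.pi / b) * (3 / 4) * ν.real {u | |u - v| ≤ ε}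
        = ∫ u, ({u | |u - v| ≤ ε} : Set ℝ).indicator (fun _ => Real.sqrt (Real.pi / b) * (3 / 4)) u ∂ν := by
          rw [integral_indicator hms, setIntegral_const, smul_eq_mul, mul_comm]
      _ ≤ ∫ u, Real.sqrt (Real.pi / b) * Real.exp (-(u - v) ^ 2 / (4 * b)) ∂ν := by
          apply integral_mono ((integrable_const _).indicator hms) hii
          intro u
          by_cases hu : u ∈ {u | |u - v| ≤ ε}
          · simp only
            rw [Set.indicator_of_mem hu]
            apply mul_le_mul_of_nonneg_left _ (Real.sqrt_nonneg _)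
            have hu' : |u - v| ≤ ε := hu
            have h1 : (u - v) ^ 2 ≤ b := by
              rw [hb, ← sq_abs]
              exact pow_le_pow_left₀ (abs_nonneg _) hu' 2
            have h2 : -(1 / 4) ≤ -(u - v) ^ 2 / (4 * b) := by
              rw [le_div_iff₀ (by positivity)]
              linarith
            have h3 := Real.add_one_le_exp (-(1 / 4 : ℝ))
            have h4 := Real.exp_le_exp.2 h2
            linarith
          · simp only
            rw [Set.indicator_of_notMem hu]
            positivity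
  rw [hΘ] at hlow
  have h := hlow.trans hup
  have hsq : Real.sqrt (Real.pi / b) = Real.sqrt Real.pi / ε := by
    rw [Real.sqrt_div Real.pi_pos.le, hb, Real.sqrt_sq hε.le]
  rw [hsq] at h
  have hp1 : 1 ≤ Real.sqrt Real.pi := by
    rw [Real.one_le_sqrt]; linarith [Real.pi_gt_three]
  have hp0 : 0 < Real.sqrt Real.pi := by linarith
  set m := ν.real {u | |u - v| ≤ ε} with hm
  set Q := C * R ^ (-(1 : ℝ) / 4) with hQ
  have hQ0 : 0 ≤ Q := by positivity
  -- multiply by ε / sqrt π
  have h5 : (3 / 4) * m ≤ 2 * R * (ε / Real.sqrt Real.pi) + Q := by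
    have h6 := mul_le_mul_of_nonneg_right h (by positivity : 0 ≤ ε / Real.sqrt Real.pi)
    have e1 : Real.sqrt Real.pi / ε * (3 / 4) * m * (ε / Real.sqrt Real.pi) = (3 / 4) * m := by
      field_simp
    have e2 : (2 * R + Q * (Real.sqrt Real.pi / ε)) * (ε / Real.sqrt Real.pi)
        = 2 * R * (ε / Real.sqrt Real.pi) + Q := by
      field_simp
    rw [e1, e2] at h6
    exact h6
  have h7 : ε / Real.sqrt Real.pi ≤ ε := div_le_self hε.le hp1
  have h8 : 2 * R * (ε / Real.sqrt Real.pi) ≤ 2 * R * ε :=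
    mul_le_mul_of_nonneg_left h7 (by linarith)
  nlinarith

end Pool.Agent.X33.ST
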