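import Pool.Agent.X33.ST.Path
import Pool.Agent.X33.ST.Four

/-!
# The range of the process is small, hence no measure with Fourier decay on the graph
-/

set_option autoImplicit false

open MeasureTheory ProbabilityTheory Filter Topology Set
open scoped ENNReal NNReal

namespace Pool.Agent.X33.ST

/-- Weights of the atoms before time one. -/
noncomputable def bq (ω : Om) (q : Ix × ℕ) : ℝ :=
  if q.2 < (ω q.1).1 ∧ q.1.2 = 0 then w1 q.1.1 else 0

theorem bq_nonneg (ω : Om) (q : Ix × ℕ) : 0 ≤ bq ω q := by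
  unfold bq
  split_ifs
  · exact (w1_pos _).le
  · exact le_rfl

theorem w1_zero : w1 0 = 1 := by simp [w1]

theorem summable_bq {ω : Om} (hω : Good ω) : Summable (bq ω) := by
  refine Summable.of_nonneg_of_le (bq_nonneg ω) (fun q => ?_) (summable_wq hω)
  unfold bq wq
  by_cases h : q.2 < (ω q.1).1
  · by_cases h2 : q.1.2 = 0
    · rw [if_pos ⟨h, h2⟩, if_pos h, h2, w1_zero, mul_one]
    · rw [if_neg (fun h' => h2 h'.2), if_pos h]
      have := w1_pos q.1.1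
      have := w1_pos q.1.2
      positivity
  · rw [if_neg (fun h' => h h'.1), if_neg h]

/-- The big atoms before time one. -/
def bigSet (ω : Om) (M : ℕ) : Set (Ix × ℕ) :=
  {q | q.2 < (ω q.1).1 ∧ q.1.2 = 0 ∧ |q.1.1| < M}

theorem bigSet_finite (ω : Om) (M : ℕ) : (bigSet ω M).Finite := by
  have hfin : (⋃ c ∈ (Set.Ioo (-(M : ℤ)) M ×ˢ ({0} : Set ℤ) : Set Ix),
      (Prod.mk c) '' (Set.Iio (ω c).1)).Finite := by
    apply Set.Finite.biUnion
    · exact (Set.finite_Ioo _ _).prod (Set.toFinite _)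
    · intro c _
      exact (Set.finite_Iio _).image _
  refine hfin.subset ?_
  rintro ⟨c, j⟩ ⟨h1, h2, h3⟩
  simp only at h1 h2 h3
  rw [mem_iUnion₂]
  exact ⟨c, ⟨abs_lt.1 h3, h2⟩, ⟨j, h1, rfl⟩⟩

/-- The big atoms, as a finite set. -/
noncomputable def big (ω : Om) (M : ℕ) : Finset (Ix × ℕ) := (bigSet_finite ω M).toFinset

theorem mem_big {ω : Om} {M : ℕ} {q : Ix × ℕ} :
    q ∈ big ω M ↔ q.2 < (ω q.1).1 ∧ q.1.2 = 0 ∧ |q.1.1| < M := by
  unfold big
  rw [Set.Finite.mem_toFinset]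
  rfl

theorem card_big {ω : Om} (hω : Good ω) {M : ℕ} (hM : 2 ≤ M) :
    ((big ω M).card : ℝ) ≤ (M : ℝ) ^ 2 * ∑' q, bq ω q := by
  have h1 : ∑ q ∈ big ω M, bq ω q ≤ ∑' q, bq ω q :=
    (summable_bq hω).sum_le_tsum _ fun q _ => bq_nonneg ω q
  have hM0 : (0 : ℝ) < (M : ℝ) ^ 2 := by positivity
  have h2 : ((big ω M).card : ℝ) ≤ ∑ q ∈ big ω M, (M : ℝ) ^ 2 * bq ω q := by
    rw [Finset.card_eq_sum_ones]
    push_cast
    refine Finset.sum_le_sum fun q hq => ?_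
    rw [mem_big] at hq
    obtain ⟨h3, h4, h5⟩ := hq
    unfold bq w1
    rw [if_pos ⟨h3, h4⟩, ← div_eq_mul_inv, one_le_div (by positivity)]
    apply pow_le_pow_left₀ (by positivity)
    have h6 : 1 + |q.1.1| ≤ M := by omega
    have h7 : ((1 + |q.1.1| : ℤ) : ℝ) ≤ ((M : ℤ) : ℝ) := by exact_mod_cast h6
    push_cast at h7
    exact h7
  rw [← Finset.mul_sum] at h2
  exact h2.trans (mul_le_mul_of_nonneg_left h1 hM0.le)

theorem tail_bound {ω : Om} (hω : Good ω) {M : ℕ} (hM : 2 ≤ M) {t : ℝ} (ht : t ≤ 1) :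
    |X t ω - ∑ q ∈ big ω M, term (fun p => J p.1 * ind 0 t p.2) ω q|
      ≤ DD * ((1 + (M : ℝ)) ^ 15)⁻¹ * ∑' q, bq ω q := by
  have h1 : HasSum (fun q => if q ∈ big ω M then term (fun p => J p.1 * ind 0 t p.2) ω q else 0)
      (∑ q ∈ big ω M, term (fun p => J p.1 * ind 0 t p.2) ω q) := by
    have h2 : ∑ q ∈ big ω M, term (fun p => J p.1 * ind 0 t p.2) ω q
        = ∑ q ∈ big ω M, (if q ∈ big ω M then term (fun p => J p.1 * ind 0 t p.2) ω q else 0) :=
      Finset.sum_congr rfl fun q hq => (if_pos hq).symm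
    rw [h2]
    apply hasSum_sum_of_ne_finset_zero
    intro q hq
    exact if_neg hq
  have h3 := (summable_ind hω le_rfl t).hasSum.sub h1
  have h4 : X t ω - ∑ q ∈ big ω M, term (fun p => J p.1 * ind 0 t p.2) ω q
      = ∑' q, (term (fun p => J p.1 * ind 0 t p.2) ω q
        - (if q ∈ big ω M then term (fun p => J p.1 * ind 0 t p.2) ω q else 0)) := by
    rw [h3.tsum_eq]
    rfl
  rw [h4, ← Real.norm_eq_abs]
  refine tsum_of_norm_bounded ((summable_bq hω).hasSum.mul_left _) fun q => ?_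
  have hC : 0 ≤ DD * ((1 + (M : ℝ)) ^ 15)⁻¹ := by have := DD_pos; positivity
  have hz : 0 ≤ DD * ((1 + (M : ℝ)) ^ 15)⁻¹ * bq ω q := mul_nonneg hC (bq_nonneg _ _)
  by_cases hq : q ∈ big ω M
  · rw [if_pos hq, sub_self, norm_zero]
    exact hz
  rw [if_neg hq, sub_zero]
  by_cases ha : q.2 < (ω q.1).1
  · by_cases hτ : 0 < ((ω q.1).2 q.2).2 ∧ ((ω q.1).2 q.2).2 ≤ t
    · obtain ⟨hm1, hm2⟩ := hω.mem q
      have hn0 : q.1.2 = 0 := by
        have h5 : (0 : ℝ) < q.1.2 + 1 := lt_of_lt_of_le hτ.1 hm2.2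
        have h6 : (0 : ℤ) < q.1.2 + 1 := by exact_mod_cast h5
        have h7 : (q.1.2 : ℝ) < 1 := lt_of_lt_of_le hm2.1 (hτ.2.trans ht)
        have h8 : q.1.2 < 1 := by exact_mod_cast h7
        omega
      have hk : (M : ℤ) ≤ |q.1.1| := by
        by_contra hcon
        push Not at hcon
        exact hq (mem_big.2 ⟨ha, hn0, hcon⟩)
      have hk0 : q.1.1 ≠ 0 := by
        rintro h0
        rw [h0] at hk
        simp at hk
        omega
      have hk1 : q.1.1 ≠ -1 := by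
        rintro h0
        rw [h0] at hk
        simp at hk
        omega
      have h5 := J_bound hm1 hk0 hk1
      unfold term bq
      rw [if_pos ha, if_pos ⟨ha, hn0⟩]
      simp only
      rw [norm_mul, Real.norm_eq_abs, Real.norm_eq_abs]
      have h6 := ind_abs 0 t ((ω q.1).2 q.2).2
      have hkr : (M : ℝ) ≤ |(q.1.1 : ℝ)| := by
        have : ((M : ℤ) : ℝ) ≤ ((|q.1.1| : ℤ) : ℝ) := by exact_mod_cast hk
        simpa using this
      have h7 : ((1 + |(q.1.1 : ℝ)|) ^ 17)⁻¹ ≤ ((1 + (M : ℝ)) ^ 15)⁻¹ * w1 q.1.1 := by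
        unfold w1
        rw [← mul_inv]
        apply inv_anti₀ (by positivity)
        have e : (1 + |(q.1.1 : ℝ)|) ^ 17 = (1 + |(q.1.1 : ℝ)|) ^ 15 * (1 + |(q.1.1 : ℝ)|) ^ 2 := by ring
        rw [e]
        apply mul_le_mul_of_nonneg_right _ (by positivity)
        exact pow_le_pow_left₀ (by positivity) (by linarith) 15
      calc |J ((ω q.1).2 q.2).1| * |ind 0 t ((ω q.1).2 q.2).2|
          ≤ |J ((ω q.1).2 q.2).1| * 1 := mul_le_mul_of_nonneg_left h6 (abs_nonneg _)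
        _ = |J ((ω q.1).2 q.2).1| := mul_one _
        _ ≤ DD * ((1 + |(q.1.1 : ℝ)|) ^ 17)⁻¹ := h5
        _ ≤ DD * (((1 + (M : ℝ)) ^ 15)⁻¹ * w1 q.1.1) := mul_le_mul_of_nonneg_left h7 DD_pos.le
        _ = _ := by ring
    · have h9 : term (fun p => J p.1 * ind 0 t p.2) ω q = 0 := by
        unfold term
        rw [if_pos ha]
        simp only
        unfold ind
        rw [if_neg hτ, mul_zero]
      rw [h9, norm_zero]
      exact hz
  · unfold term
    rw [if_neg ha, norm_zero]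
    exact hz

/-- The values of the big part. -/
theorem values (ω : Om) (M : ℕ) : ∃ V : Finset ℝ, V.card ≤ (big ω M).card + 1 ∧
    ∀ t : ℝ, ∑ q ∈ big ω M, term (fun p => J p.1 * ind 0 t p.2) ω q ∈ V := by
  classical
  set B : ℝ → ℝ := fun t => ∑ q ∈ big ω M, term (fun p => J p.1 * ind 0 t p.2) ω q with hB
  refine ⟨insert 0 ((big ω M).image fun r => B (((ω r.1).2 r.2).2)), ?_, ?_⟩
  · refine (Finset.card_insert_le _ _).trans ?_
    have := Finset.card_image_le (s := big ω M) (f := fun r => B (((ω r.1).2 r.2).2))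
    omega
  · intro t
    change B t ∈ _
    rw [Finset.mem_insert]
    by_cases hA : ((big ω M).filter fun q => 0 < ((ω q.1).2 q.2).2 ∧ ((ω q.1).2 q.2).2 ≤ t).Nonempty
    · right
      obtain ⟨r, hr, hmax⟩ := Finset.exists_max_image _ (fun q : Ix × ℕ => ((ω q.1).2 q.2).2) hA
      rw [Finset.mem_filter] at hr
      rw [Finset.mem_image]
      refine ⟨r, hr.1, ?_⟩
      rw [hB]
      refine Finset.sum_congr rfl fun q hq => ?_
      unfold term
      split_ifs with h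
      · simp only
        congr 1
        unfold ind
        by_cases h1 : 0 < ((ω q.1).2 q.2).2 ∧ ((ω q.1).2 q.2).2 ≤ t
        · rw [if_pos h1, if_pos ⟨h1.1, hmax q (Finset.mem_filter.2 ⟨hq, h1⟩)⟩]
        · rw [if_neg h1, if_neg (fun h2 => h1 ⟨h2.1, h2.2.trans hr.2.2⟩)]
      · rfl
    · left
      rw [Finset.not_nonempty_iff_eq_empty, Finset.filter_eq_empty_iff] at hA
      rw [hB]
      refine Finset.sum_eq_zero fun q hq => ?_
      unfold term
      split_ifs with h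
      · simp only
        unfold ind
        rw [if_neg (hA hq), mul_zero]
      · rfl

theorem no_measure {ω : Om} (hω : Good ω) (μ : Measure (ℝ × ℝ)) [IsProbabilityMeasure μ]
    (K : Set (ℝ × ℝ)) (hK : K ⊆ {p : ℝ × ℝ | p.1 ∈ Set.Icc (0 : ℝ) 1 ∧ p.2 = X p.1 ω})
    (hμ : μ Kᶜ = 0) (C : ℝ)
    (hdec : ∀ ξ : ℝ × ℝ, 1 ≤ ‖ξ‖ →
      ‖∫ p, Complex.exp (((ξ.1 * p.1 + ξ.2 * p.2 : ℝ) : ℂ) * Complex.I) ∂μ‖
        ≤ C * ‖ξ‖ ^ (-(1 / 2 : ℝ) / 2)) : False := by
  set ν : Measure ℝ := μ.map Prod.snd with hν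
  have : IsProbabilityMeasure ν := Measure.isProbabilityMeasure_map measurable_snd.aemeasurable
  have hnorm : ∀ x : ℝ, ‖((0 : ℝ), x)‖ = |x| := by
    intro x
    rw [Prod.norm_def]
    simp
  have hdec' : ∀ x : ℝ, 1 ≤ |x| →
      ‖∫ u, Complex.exp (((x * u : ℝ) : ℂ) * Complex.I) ∂ν‖ ≤ C * |x| ^ (-(1 : ℝ) / 4) := by
    intro x hx
    have h1 := hdec (0, x) (by rw [hnorm]; exact hx)
    rw [hnorm] at h1
    rw [hν, integral_map measurable_snd.aemeasurable (by fun_prop)]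
    have e : (-(1 / 2 : ℝ) / 2) = (-(1 : ℝ) / 4) := by norm_num
    rw [e] at h1
    simpa using h1
  have hC : 0 ≤ C := by
    have h1 := hdec' 1 (by simp)
    simp only [abs_one, Real.one_rpow, mul_one] at h1
    exact (norm_nonneg _).trans h1
  set W : ℝ := ∑' q, bq ω q with hW
  have hW0 : 0 ≤ W := tsum_nonneg (bq_nonneg ω)
  have hD := DD_pos
  -- choose M
  obtain ⟨M0, hM0⟩ := exists_nat_gt (4 * (W + 1) * (DD * (W + 1) + C))
  set M : ℕ := max M0 2 with hMdef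
  have hM2 : 2 ≤ M := le_max_right _ _
  have hMgt : 4 * (W + 1) * (DD * (W + 1) + C) < M := by
    refine hM0.trans_le ?_
    exact_mod_cast le_max_left _ _
  have hMr : (2 : ℝ) ≤ M := by exact_mod_cast hM2
  obtain ⟨V, hV1, hV2⟩ := values ω M
  set ε : ℝ := DD * ((1 + (M : ℝ)) ^ 15)⁻¹ * (W + 1) with hε
  have hεpos : 0 < ε := by positivity
  set R : ℝ := (M : ℝ) ^ 12 with hR
  have hR1 : 1 ≤ R := one_le_pow₀ (by linarith)
  have hcov : K ⊆ Prod.snd ⁻¹' (⋃ v ∈ V, {u : ℝ | |u - v| ≤ ε}) := by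
    intro p hp
    obtain ⟨⟨hp0, hp1⟩, hp2⟩ := hK hp
    rw [mem_preimage, mem_iUnion₂]
    refine ⟨_, hV2 p.1, ?_⟩
    change |p.2 - _| ≤ ε
    rw [hp2]
    refine (tail_bound hω hM2 hp1).trans ?_
    rw [hε]
    apply mul_le_mul_of_nonneg_left _ (by positivity)
    linarith
  have hms : ∀ v : ℝ, MeasurableSet {u : ℝ | |u - v| ≤ ε} := fun v =>
    (isClosed_le (by fun_prop) continuous_const).measurableSet
  have hmS : MeasurableSet (⋃ v ∈ V, {u : ℝ | |u - v| ≤ ε}) :=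
    Finset.measurableSet_biUnion V fun v _ => hms v
  have hfull : ν.real (⋃ v ∈ V, {u : ℝ | |u - v| ≤ ε}) = 1 := by
    have h1 : ν (⋃ v ∈ V, {u : ℝ | |u - v| ≤ ε})ᶜ = 0 := by
      rw [hν, Measure.map_apply measurable_snd hmS.compl]
      refine measure_mono_null ?_ hμ
      intro p hp hpK
      exact hp (hcov hpK)
    rw [measureReal_def, (prob_compl_eq_zero_iff hmS).1 h1]
    simp
  have hsum : (1 : ℝ) ≤ V.card * (4 * (R * ε + C * R ^ (-(1 : ℝ) / 4))) := by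
    calc (1 : ℝ) = ν.real (⋃ v ∈ V, {u : ℝ | |u - v| ≤ ε}) := hfull.symm
      _ ≤ ∑ v ∈ V, ν.real {u : ℝ | |u - v| ≤ ε} := measureReal_biUnion_finset_le _ _
      _ ≤ ∑ v ∈ V, (4 * (R * ε + C * R ^ (-(1 : ℝ) / 4))) :=
          Finset.sum_le_sum fun v _ => mass_bound ν C hC hdec' v ε R hεpos hR1
      _ = _ := by rw [Finset.sum_const, nsmul_eq_mul]
  have hRp : R ^ (-(1 : ℝ) / 4) = ((M : ℝ) ^ 3)⁻¹ := by
    rw [hR, ← Real.rpow_natCast, ← Real.rpow_mul (by positivity), ← Real.rpow_natCast (M : ℝ) 3,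
      ← Real.rpow_neg (by positivity)]
    norm_num
  have hRε : R * ε ≤ DD * (W + 1) * ((M : ℝ) ^ 3)⁻¹ := by
    rw [hR, hε]
    have h1 : ((1 + (M : ℝ)) ^ 15)⁻¹ ≤ ((M : ℝ) ^ 15)⁻¹ := by
      apply inv_anti₀ (by positivity)
      exact pow_le_pow_left₀ (by positivity) (by linarith) 15
    calc (M : ℝ) ^ 12 * (DD * ((1 + (M : ℝ)) ^ 15)⁻¹ * (W + 1))
        = (DD * (W + 1) * (M : ℝ) ^ 12) * ((1 + (M : ℝ)) ^ 15)⁻¹ := by ring
      _ ≤ (DD * (W + 1) * (M : ℝ) ^ 12) * ((M : ℝ) ^ 15)⁻¹ :=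
          mul_le_mul_of_nonneg_left h1 (by positivity)
      _ = DD * (W + 1) * ((M : ℝ) ^ 3)⁻¹ := by
          have hMne : (M : ℝ) ≠ 0 := by positivity
          field_simp
  have hcard : (V.card : ℝ) ≤ (M : ℝ) ^ 2 * (W + 1) := by
    have h1 : (V.card : ℝ) ≤ (big ω M).card + 1 := by exact_mod_cast hV1
    have h2 := card_big hω hM2
    have h3 : (1 : ℝ) ≤ (M : ℝ) ^ 2 := one_le_pow₀ (by linarith)
    rw [mul_add, mul_one]
    linarith
  have hfin : (1 : ℝ) ≤ (4 * (W + 1) * (DD * (W + 1) + C)) * ((M : ℝ))⁻¹ := by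
    calc (1 : ℝ) ≤ V.card * (4 * (R * ε + C * R ^ (-(1 : ℝ) / 4))) := hsum
      _ ≤ ((M : ℝ) ^ 2 * (W + 1)) * (4 * (DD * (W + 1) * ((M : ℝ) ^ 3)⁻¹ + C * ((M : ℝ) ^ 3)⁻¹)) := by
          apply mul_le_mul hcard _ (by positivity) (by positivity)
          rw [hRp]
          linarith
      _ = _ := by
          have hMne : (M : ℝ) ≠ 0 := by positivity
          field_simp
  rw [← div_eq_mul_inv, one_le_div (by positivity)] at hfin
  linarith

end Pool.Agent.X33.ST
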