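import Pool.Agent.X33.ST.Camp

/-!
# Almost sure properties
-/

set_option autoImplicit false

open MeasureTheory ProbabilityTheory Filter Topology Set
open scoped ENNReal NNReal

namespace Pool.Agent.X33.ST

theorem ae_mem : ∀ᵐ ω ∂PP, ∀ q : Ix × ℕ, (ω q.1).2 q.2 ∈ sq q.1 := by
  rw [ae_all_iff]
  rintro ⟨c, j⟩
  have h1 : MeasurePreserving (Function.eval c) PP (cellMeasure (rho c)) :=
    measurePreserving_eval_infinitePi (fun c : Ix => cellMeasure (rho c)) c
  have h2 : MeasurePreserving (Prod.snd : Cell → (ℕ → ℝ × ℝ)) (cellMeasure (rho c))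
      (Measure.infinitePi fun _ : ℕ => rho c) := measurePreserving_snd
  have h3 : MeasurePreserving (Function.eval j) (Measure.infinitePi fun _ : ℕ => rho c) (rho c) :=
    measurePreserving_eval_infinitePi (fun _ : ℕ => rho c) j
  have h4 := (h3.comp h2).comp h1
  have h5 : ∀ᵐ x ∂(rho c), x ∈ sq c := ae_restrict_mem (measurableSet_sq c)
  exact h4.quasiMeasurePreserving.ae h5

/-- One-dimensional weights. -/
noncomputable def w1 (k : ℤ) : ℝ := ((1 + |(k : ℝ)|) ^ 2)⁻¹

theorem w1_pos (k : ℤ) : 0 < w1 k := by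
  unfold w1; positivity

theorem summable_w1 : Summable w1 := by
  have h : Summable fun n : ℕ => (((n + 1 : ℕ) : ℝ) ^ 2)⁻¹ :=
    (summable_nat_add_iff 1).2 (Real.summable_nat_pow_inv.2 one_lt_two)
  apply Summable.of_nat_of_neg
  · refine h.congr fun n => ?_
    simp [w1, add_comm]
  · refine h.congr fun n => ?_
    simp [w1, add_comm]

theorem summable_w : Summable fun c : Ix => w1 c.1 * w1 c.2 :=
  summable_w1.mul_of_nonneg summable_w1 (fun k => (w1_pos k).le) (fun k => (w1_pos k).le)

theorem mean_lt_top : ∫⁻ n : ℕ, ENNReal.ofReal (n : ℝ) ∂(poissonMeasure 1) < ⊤ := by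
  have h : Integrable (fun n : ℕ => (n : ℝ)) (poissonMeasure 1) := by
    rw [integrable_poissonMeasure_iff]
    have h1 : Summable fun n : ℕ => (2 : ℝ) ^ n / (n.factorial : ℝ) := Real.summable_pow_div_factorial 2
    refine Summable.of_nonneg_of_le (fun n => by positivity) (fun n => ?_) h1
    simp only [NNReal.coe_one, one_pow, mul_one, RCLike.norm_natCast]
    have h2 : Real.exp (-1) ≤ 1 := Real.exp_le_one_iff.2 (by norm_num)
    have h3 : (n : ℝ) ≤ 2 ^ n := by exact_mod_cast Nat.lt_two_pow_self.le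
    have h4 : (0 : ℝ) < n.factorial := by positivity
    rw [div_mul_eq_mul_div]
    apply div_le_div_of_nonneg_right _ h4.le
    calc Real.exp (-1) * (n : ℝ) ≤ 1 * 2 ^ n := by
          apply mul_le_mul h2 h3 (by positivity) zero_le_one
      _ = 2 ^ n := one_mul _
  have := h.lintegral_lt_top
  exact this

theorem ae_weight : ∀ᵐ ω ∂PP, Summable fun c : Ix => ((ω c).1 : ℝ) * (w1 c.1 * w1 c.2) := by
  have hm : ∀ c : Ix, Measurable fun ω : Om => ENNReal.ofReal (((ω c).1 : ℝ) * (w1 c.1 * w1 c.2)) := by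
    intro c
    refine ENNReal.measurable_ofReal.comp (Measurable.mul_const ?_ _)
    exact (measurable_from_nat (f := fun n : ℕ => (n : ℝ))).comp
      (measurable_fst.comp (measurable_pi_apply c))
  have h1 : ∫⁻ ω, ∑' c : Ix, ENNReal.ofReal (((ω c).1 : ℝ) * (w1 c.1 * w1 c.2)) ∂PP ≠ ⊤ := by
    rw [lintegral_tsum fun c => (hm c).aemeasurable]
    have h2 : ∀ c : Ix, ∫⁻ ω, ENNReal.ofReal (((ω c).1 : ℝ) * (w1 c.1 * w1 c.2)) ∂PP
        = (∫⁻ n : ℕ, ENNReal.ofReal (n : ℝ) ∂(poissonMeasure 1)) * ENNReal.ofReal (w1 c.1 * w1 c.2) := by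
      intro c
      have h3 : MeasurePreserving (Function.eval c) PP (cellMeasure (rho c)) :=
        measurePreserving_eval_infinitePi (fun c : Ix => cellMeasure (rho c)) c
      have h4 : MeasurePreserving (Prod.fst : Cell → ℕ) (cellMeasure (rho c)) (poissonMeasure 1) :=
        measurePreserving_fst
      have h5 := (h4.comp h3).lintegral_comp (f := fun n : ℕ => ENNReal.ofReal (n : ℝ))
        measurable_from_nat
      have h6 : ∀ ω : Om, ENNReal.ofReal (((ω c).1 : ℝ) * (w1 c.1 * w1 c.2))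
          = ENNReal.ofReal ((ω c).1 : ℝ) * ENNReal.ofReal (w1 c.1 * w1 c.2) := by
        intro ω
        rw [ENNReal.ofReal_mul (by positivity)]
      simp_rw [h6]
      rw [lintegral_mul_const]
      · rw [← h5]; rfl
      · exact ENNReal.measurable_ofReal.comp ((measurable_from_nat (f := fun n : ℕ => (n : ℝ))).comp
          (measurable_fst.comp (measurable_pi_apply c)))
    simp_rw [h2]
    rw [ENNReal.tsum_mul_left]
    apply ENNReal.mul_ne_top mean_lt_top.ne
    exact summable_w.tsum_ofReal_ne_top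
  have h2 := ae_lt_top (Measurable.ennreal_tsum hm) h1
  filter_upwards [h2] with ω hω
  have h3 := ENNReal.summable_toReal hω.ne
  refine h3.congr fun c => ?_
  rw [ENNReal.toReal_ofReal]
  have := w1_pos c.1
  have := w1_pos c.2
  positivity

end Pool.Agent.X33.ST
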