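import Pool.Agent.X33.ST.Cell

/-!
# The Poisson process on the plane and its characteristic functional
-/

set_option autoImplicit false

open MeasureTheory ProbabilityTheory Filter Topology Set
open scoped ENNReal NNReal

namespace Pool.Agent.X33.ST

/-- Index of a cell. -/
abbrev Ix := ℤ × ℤ

/-- The unit square with index `c`. -/
def sq (c : Ix) : Set (ℝ × ℝ) := Ico (c.1 : ℝ) (c.1 + 1) ×ˢ Ioc (c.2 : ℝ) (c.2 + 1)

theorem measurableSet_sq (c : Ix) : MeasurableSet (sq c) :=
  measurableSet_Ico.prod measurableSet_Ioc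

/-- Lebesgue measure on a cell. -/
noncomputable def rho (c : Ix) : Measure (ℝ × ℝ) := (volume : Measure (ℝ × ℝ)).restrict (sq c)

instance (c : Ix) : IsProbabilityMeasure (rho c) := by
  constructor
  rw [rho, Measure.restrict_apply_univ, sq, Measure.volume_eq_prod, Measure.prod_prod]
  simp [Real.volume_Ico, Real.volume_Ioc]

theorem sq_disjoint : Pairwise (Function.onFun Disjoint sq) := by
  rintro ⟨a, b⟩ ⟨a', b'⟩ hne
  rw [Function.onFun, Set.disjoint_left]
  rintro ⟨x, y⟩ ⟨⟨h1, h2⟩, ⟨h3, h4⟩⟩ ⟨⟨h5, h6⟩, ⟨h7, h8⟩⟩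
  simp only at h1 h2 h3 h4 h5 h6 h7 h8
  apply hne
  have e1 : a = a' := by
    have l1 : (a : ℝ) < a' + 1 := lt_of_le_of_lt h1 h6
    have l2 : (a' : ℝ) < a + 1 := lt_of_le_of_lt h5 h2
    have l1' : a < a' + 1 := by exact_mod_cast l1
    have l2' : a' < a + 1 := by exact_mod_cast l2
    omega
  have e2 : b = b' := by
    have l1 : (b : ℝ) < b' + 1 := lt_of_lt_of_le h3 h8
    have l2 : (b' : ℝ) < b + 1 := lt_of_lt_of_le h7 h4
    have l1' : b < b' + 1 := by exact_mod_cast l1
    have l2' : b' < b + 1 := by exact_mod_cast l2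
    omega
  rw [e1, e2]

theorem sq_union : (⋃ c : Ix, sq c) = univ := by
  rw [eq_univ_iff_forall]
  rintro ⟨x, y⟩
  rw [mem_iUnion]
  refine ⟨(⌊x⌋, ⌈y⌉ - 1), ⟨Int.floor_le x, Int.lt_floor_add_one x⟩, ?_, ?_⟩
  · have := Int.ceil_lt_add_one y
    simp only
    push_cast
    linarith
  · have := Int.le_ceil y
    simp only
    push_cast
    linarith

/-- The probability space. -/
abbrev Om := Ix → Cell

/-- The probability measure. -/
noncomputable def PP : Measure Om := Measure.infinitePi fun c : Ix => cellMeasure (rho c)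

instance : IsProbabilityMeasure PP := by unfold PP; infer_instance

/-- The value of `g` at the atom `q`, zero if there is no such atom. -/
noncomputable def term (g : ℝ × ℝ → ℝ) (ω : Om) (q : Ix × ℕ) : ℝ :=
  if q.2 < (ω q.1).1 then g ((ω q.1).2 q.2) else 0

theorem hasSum_cell (g : ℝ × ℝ → ℝ) (ω : Om) (c : Ix) :
    HasSum (fun j : ℕ => term g ω (c, j)) (∑ j ∈ Finset.range (ω c).1, g ((ω c).2 j)) := by
  have h : ∑ j ∈ Finset.range (ω c).1, g ((ω c).2 j)
      = ∑ j ∈ Finset.range (ω c).1, term g ω (c, j) := by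
    refine Finset.sum_congr rfl fun j hj => ?_
    rw [term, if_pos (Finset.mem_range.1 hj)]
  rw [h]
  apply hasSum_sum_of_ne_finset_zero
  intro j hj
  rw [term, if_neg (by simpa using hj)]

theorem prod_int (s : Finset Ix) (f : Cell → ℂ) (hf : Measurable f) :
    ∫ ω, ∏ c : s, f (ω c) ∂PP = ∏ c : s, ∫ ω, f (ω c) ∂PP := by
  have hi : iIndepFun (fun (c : Ix) (ω : Om) => ω c) PP :=
    iIndepFun_infinitePi (P := fun c : Ix => cellMeasure (rho c)) (X := fun _ x => x)
      (fun _ => measurable_id)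
  have hi2 : iIndepFun (fun (c : s) (ω : Om) => ω c) PP :=
    hi.precomp (g := fun c : s => (c : Ix)) Subtype.val_injective
  have hmc : ∀ c : s, AEMeasurable (fun ω : Om => ω (c : Ix)) PP := fun c =>
    (measurable_pi_apply (c : Ix)).aemeasurable
  exact iIndepFun.integral_fun_prod_comp (𝓧 := fun _ : s => Cell) (X := fun (c : s) (ω : Om) => ω c)
    (f := fun _ => f) hi2 hmc (fun c => hf.aestronglyMeasurable)

theorem campbell (g : ℝ × ℝ → ℝ) (hg : Measurable g)
    (hs : ∀ᵐ ω ∂PP, Summable (term g ω))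
    (hint : Integrable (fun x => Complex.exp ((g x : ℂ) * Complex.I) - 1) volume) :
    ∫ ω, Complex.exp (((∑' q, term g ω q : ℝ) : ℂ) * Complex.I) ∂PP
      = Complex.exp (∫ x, (Complex.exp ((g x : ℂ) * Complex.I) - 1)) := by
  set G : ℝ × ℝ → ℂ := fun x => Complex.exp ((g x : ℂ) * Complex.I) - 1 with hG
  -- finite sums of cells
  set F : Finset Ix → Om → ℂ := fun s ω =>
    Complex.exp (((∑ c ∈ s, ∑ j ∈ Finset.range (ω c).1, g ((ω c).2 j) : ℝ) : ℂ) * Complex.I) with hF
  have hmeas : ∀ s, Measurable (F s) := by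
    intro s
    refine Complex.measurable_exp.comp ((Complex.measurable_ofReal.comp ?_).mul_const _)
    exact Finset.measurable_fun_sum s (f := fun c (ω : Om) => ∑ j ∈ Finset.range (ω c).1, g ((ω c).2 j))
      fun c _ => (measurable_rangeSum g hg).comp (measurable_pi_apply c)
  have h1 : ∀ s : Finset Ix, ∫ ω, F s ω ∂PP = Complex.exp (∑ c ∈ s, ∫ x in sq c, G x) := by
    intro s
    have hm1 : Measurable fun w : Cell =>
        Complex.exp (((∑ j ∈ Finset.range w.1, g (w.2 j) : ℝ) : ℂ) * Complex.I) :=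
      Complex.measurable_exp.comp ((Complex.measurable_ofReal.comp
        (measurable_rangeSum g hg)).mul_const _)
    have h3 := prod_int s _ hm1
    have h4 : ∀ ω, F s ω = ∏ c : s, Complex.exp (((∑ j ∈ Finset.range (ω c).1,
        g ((ω c).2 j) : ℝ) : ℂ) * Complex.I) := by
      intro ω
      have e1 := Finset.prod_coe_sort s (fun c : Ix => Complex.exp (((∑ j ∈ Finset.range (ω c).1,
        g ((ω c).2 j) : ℝ) : ℂ) * Complex.I))
      rw [e1, ← Complex.exp_sum, ← Finset.sum_mul, ← Complex.ofReal_sum]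
    have h5 : ∀ c : s, ∫ ω : Om, Complex.exp (((∑ j ∈ Finset.range (ω c).1,
        g ((ω c).2 j) : ℝ) : ℂ) * Complex.I) ∂PP = Complex.exp (∫ x in sq c, G x) := by
      intro c
      have hmp := (measurePreserving_eval_infinitePi (fun c : Ix => cellMeasure (rho c)) (c : Ix))
      have h6 := integral_map (μ := PP) hmp.measurable.aemeasurable
        (f := fun w : Cell => Complex.exp (((∑ j ∈ Finset.range w.1, g (w.2 j) : ℝ) : ℂ) * Complex.I))
        hm1.aestronglyMeasurable
      rw [PP, hmp.map_eq] at h6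
      rw [PP]
      have h7 := cell_charFun (rho c) g hg
      rw [h6] at h7
      exact h7
    have e2 : ∫ ω, F s ω ∂PP = ∫ ω : Om, ∏ c : s, Complex.exp (((∑ j ∈ Finset.range (ω c).1,
        g ((ω c).2 j) : ℝ) : ℂ) * Complex.I) ∂PP := integral_congr_ae (Eventually.of_forall h4)
    rw [e2, h3, Finset.prod_congr rfl fun c _ => h5 c, ← Complex.exp_sum]
    have e3 := Finset.sum_coe_sort s (fun c => ∫ x in sq c, G x)
    rw [e3]
  have h2 : Tendsto (fun s : Finset Ix => ∫ ω, F s ω ∂PP) atTop
      (𝓝 (∫ ω, Complex.exp (((∑' q, term g ω q : ℝ) : ℂ) * Complex.I) ∂PP)) := by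
    refine tendsto_integral_filter_of_dominated_convergence (fun _ => (1 : ℝ)) ?_ ?_ ?_ ?_
    · exact Eventually.of_forall fun s => (hmeas s).aestronglyMeasurable
    · refine Eventually.of_forall fun s => Eventually.of_forall fun ω => ?_
      rw [hF, Complex.norm_exp_ofReal_mul_I]
    · exact integrable_const _
    · filter_upwards [hs] with ω hω
      have h7 : HasSum (fun c => ∑ j ∈ Finset.range (ω c).1, g ((ω c).2 j)) (∑' q, term g ω q) :=
        hω.hasSum.prod_fiberwise fun c => hasSum_cell g ω c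
      have h8 : Tendsto (fun s : Finset Ix => ∑ c ∈ s, ∑ j ∈ Finset.range (ω c).1, g ((ω c).2 j))
        atTop (𝓝 (∑' q, term g ω q)) := h7
      have h9 : Continuous fun r : ℝ => Complex.exp ((r : ℂ) * Complex.I) := by fun_prop
      exact (h9.tendsto _).comp h8
  have h3 : Tendsto (fun s : Finset Ix => ∫ ω, F s ω ∂PP) atTop
      (𝓝 (Complex.exp (∫ x, G x))) := by
    simp_rw [h1]
    refine (Complex.continuous_exp.tendsto _).comp ?_
    have h10 := hasSum_integral_iUnion (μ := (volume : Measure (ℝ × ℝ))) (f := G)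
      (fun c => measurableSet_sq c) sq_disjoint (by rw [sq_union]; exact hint.integrableOn)
    rw [sq_union, setIntegral_univ] at h10
    exact h10
  exact tendsto_nhds_unique h2 h3

end Pool.Agent.X33.ST
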