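import Mathlib

/-!
# Compound Poisson cells

Characteristic functional of a Poisson number of independent points.
-/

set_option autoImplicit false

open MeasureTheory ProbabilityTheory Filter Topology
open scoped ENNReal NNReal

namespace Pool.Agent.X33.ST

/-- A cell: a number of points, and a sequence of points. -/
abbrev Cell := ℕ × (ℕ → ℝ × ℝ)

/-- Poisson number, independent points. -/
noncomputable def cellMeasure (ρ : Measure (ℝ × ℝ)) : Measure Cell :=
  (poissonMeasure 1).prod (Measure.infinitePi fun _ : ℕ => ρ)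

instance (ρ : Measure (ℝ × ℝ)) [IsProbabilityMeasure ρ] : IsProbabilityMeasure (cellMeasure ρ) := by
  unfold cellMeasure; infer_instance

theorem integral_range_prod (ρ : Measure (ℝ × ℝ)) [IsProbabilityMeasure ρ] (f : ℝ × ℝ → ℂ)
    (hf : Measurable f) (n : ℕ) :
    ∫ z : ℕ → ℝ × ℝ, ∏ j ∈ Finset.range n, f (z j) ∂(Measure.infinitePi fun _ : ℕ => ρ)
      = (∫ x, f x ∂ρ) ^ n := by
  have h1 : iIndepFun (fun (i : ℕ) (z : ℕ → ℝ × ℝ) => z i) (Measure.infinitePi fun _ : ℕ => ρ) := by
    have := iIndepFun_infinitePi (P := fun _ : ℕ => ρ) (X := fun _ x => x) (fun _ => measurable_id)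
    exact this
  have h2 : iIndepFun (fun (i : Fin n) (z : ℕ → ℝ × ℝ) => z i)
      (Measure.infinitePi fun _ : ℕ => ρ) := h1.precomp (g := fun i : Fin n => (i : ℕ)) Fin.val_injective
  have h3 := h2.integral_fun_prod_comp (f := fun _ => f) (fun i => (measurable_pi_apply _).aemeasurable)
    (fun i => hf.aestronglyMeasurable)
  have h4 : ∀ z : ℕ → ℝ × ℝ, ∏ j ∈ Finset.range n, f (z j) = ∏ i : Fin n, f (z i) := by
    intro z
    rw [Finset.prod_range]
  simp_rw [h4, h3]
  have h5 : ∀ i : Fin n, ∫ z : ℕ → ℝ × ℝ, f (z i) ∂(Measure.infinitePi fun _ : ℕ => ρ) = ∫ x, f x ∂ρ := by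
    intro i
    have hmp := (measurePreserving_eval_infinitePi (fun _ : ℕ => ρ) (i : ℕ))
    have h6 := integral_map (μ := Measure.infinitePi fun _ : ℕ => ρ) hmp.measurable.aemeasurable
      (f := f) hf.aestronglyMeasurable
    rw [hmp.map_eq] at h6
    exact h6.symm
  simp [h5]

theorem measurable_rangeSum (g : ℝ × ℝ → ℝ) (hg : Measurable g) :
    Measurable fun w : Cell => ∑ j ∈ Finset.range w.1, g (w.2 j) := by
  apply measurable_from_prod_countable_right
  intro n
  exact Finset.measurable_fun_sum (Finset.range n) (f := fun j (y : ℕ → ℝ × ℝ) => g (y j))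
    fun j _ => hg.comp (measurable_pi_apply j)

theorem cell_charFun (ρ : Measure (ℝ × ℝ)) [IsProbabilityMeasure ρ] (g : ℝ × ℝ → ℝ)
    (hg : Measurable g) :
    ∫ w : Cell, Complex.exp (((∑ j ∈ Finset.range w.1, g (w.2 j) : ℝ) : ℂ) * Complex.I)
        ∂(cellMeasure ρ)
      = Complex.exp (∫ x, (Complex.exp ((g x : ℂ) * Complex.I) - 1) ∂ρ) := by
  set φ : ℂ := ∫ x, Complex.exp ((g x : ℂ) * Complex.I) ∂ρ with hφ
  have hint : Integrable (fun x => Complex.exp ((g x : ℂ) * Complex.I)) ρ := by
    refine Integrable.mono' (integrable_const (1 : ℝ)) ?_ ?_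
    · exact (Complex.measurable_exp.comp ((Complex.measurable_ofReal.comp hg).mul_const _)).aestronglyMeasurable
    · exact Eventually.of_forall fun x => by rw [Complex.norm_exp_ofReal_mul_I]
  have h1 : ∫ x, (Complex.exp ((g x : ℂ) * Complex.I) - 1) ∂ρ = φ - 1 := by
    rw [integral_sub hint (integrable_const _)]
    simp [hφ]
  rw [h1, cellMeasure, integral_prod]
  · have h2 : ∀ n : ℕ, ∫ z : ℕ → ℝ × ℝ,
        Complex.exp (((∑ j ∈ Finset.range n, g (z j) : ℝ) : ℂ) * Complex.I)
          ∂(Measure.infinitePi fun _ : ℕ => ρ) = φ ^ n := by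
      intro n
      rw [hφ, ← integral_range_prod ρ (fun x => Complex.exp ((g x : ℂ) * Complex.I))
        (Complex.measurable_exp.comp ((Complex.measurable_ofReal.comp hg).mul_const _)) n]
      congr 1
      funext z
      rw [← Complex.exp_sum]
      congr 1
      push_cast
      rw [Finset.sum_mul]
    simp only [h2]
    rw [integral_poissonMeasure]
    have h3 : HasSum (fun n : ℕ => φ ^ n / (n.factorial : ℂ)) (Complex.exp φ) := by
      have := NormedSpace.expSeries_div_hasSum_exp (𝔸 := ℂ) φ
      rwa [← Complex.exp_eq_exp_ℂ] at this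
    have h4 := (h3.mul_left (Complex.exp (-1))).tsum_eq
    rw [← Complex.exp_add] at h4
    rw [show φ - 1 = -1 + φ by ring, ← h4]
    congr 1
    funext n
    simp only [NNReal.coe_one, one_pow, mul_one, Complex.real_smul]
    push_cast
    ring
  · refine Integrable.mono' (integrable_const (1 : ℝ)) ?_ ?_
    · exact (Complex.measurable_exp.comp ((Complex.measurable_ofReal.comp
        (measurable_rangeSum g hg)).mul_const _)).aestronglyMeasurable
    · exact Eventually.of_forall fun x => by rw [Complex.norm_exp_ofReal_mul_I]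

end Pool.Agent.X33.ST
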