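import Mathlib

/-!
# The stable exponent
-/

set_option autoImplicit false

open MeasureTheory Filter Topology Set
open scoped ENNReal NNReal

namespace Pool.Agent.X33.ST

theorem one_le_pow_aux {y : ℝ} (hy : 1 ≤ |y|) {n : ℕ} (hn : 2 ≤ n) : y ^ 2 ≤ |y| ^ n := by
  rw [← sq_abs]
  exact pow_le_pow_right₀ hy hn

theorem inv_bound {y : ℝ} (hy : 1 ≤ |y|) {n : ℕ} (hn : 2 ≤ n) : (|y| ^ n)⁻¹ ≤ 2 * (1 + y ^ 2)⁻¹ := by
  have h1 := one_le_pow_aux hy hn
  have h2 : 1 ≤ y ^ 2 := by rw [← sq_abs]; nlinarith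
  rw [← one_div, ← div_eq_mul_inv]
  rw [div_le_div_iff₀ (by positivity) (by positivity)]
  linarith

theorem small_bound {y : ℝ} (hy : |y| ≤ 1) : 2 ≤ 4 * (1 + y ^ 2)⁻¹ := by
  have h2 : y ^ 2 ≤ 1 := by rw [← sq_abs]; nlinarith [abs_nonneg y]
  rw [← div_eq_mul_inv, le_div_iff₀ (by positivity)]
  linarith

/-- The basic profile. -/
noncomputable def prof (z : ℝ) : ℝ := 1 - Real.cos (1 / z ^ 17)

theorem prof_nonneg (z : ℝ) : 0 ≤ prof z := by
  unfold prof; linarith [Real.cos_le_one (1 / z ^ 17)]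

theorem prof_measurable : Measurable prof := by
  unfold prof
  exact measurable_const.sub (Real.measurable_cos.comp (measurable_const.div (measurable_id.pow_const 17)))

theorem prof_le (z : ℝ) : prof z ≤ 4 * (1 + z ^ 2)⁻¹ := by
  rcases le_total |z| 1 with h | h
  · have := small_bound h
    unfold prof
    linarith [Real.neg_one_le_cos (1 / z ^ 17)]
  · have h1 := Real.one_sub_sq_div_two_le_cos (x := 1 / z ^ 17)
    have h2 : (1 / z ^ 17) ^ 2 = (|z| ^ 34)⁻¹ := by
      rw [one_div, inv_pow, ← pow_mul]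
      congr 1
      rw [← abs_pow, abs_of_nonneg]
      exact Even.pow_nonneg (by decide) z
    have h3 := inv_bound h (n := 34) (by norm_num)
    unfold prof
    rw [h2] at h1
    have h4 : 0 ≤ (1 + z ^ 2)⁻¹ := by positivity
    linarith

theorem prof_integrable : Integrable prof := by
  refine Integrable.mono' (integrable_inv_one_add_sq.const_mul 4) prof_measurable.aestronglyMeasurable ?_
  exact Eventually.of_forall fun z => by
    rw [Real.norm_eq_abs, abs_of_nonneg (prof_nonneg z)]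
    exact prof_le z

/-- The normalising constant. -/
noncomputable def KK : ℝ := ∫ z, prof z

theorem KK_pos : 0 < KK := by
  unfold KK
  rw [integral_pos_iff_support_of_nonneg prof_nonneg prof_integrable]
  refine lt_of_lt_of_le ?_ (measure_mono (?_ : Ioo (1 : ℝ) 2 ⊆ Function.support prof))
  · simp
  · intro z hz
    rw [Function.mem_support]
    have h1 : (1 : ℝ) < z ^ 17 := one_lt_pow₀ hz.1 (by norm_num)
    have h2 : 1 / z ^ 17 < 1 := by rw [div_lt_one (by linarith)]; exact h1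
    have h3 : 0 < 1 / z ^ 17 := by positivity
    have h4 : Real.cos (1 / z ^ 17) < 1 := by
      have := Real.cos_lt_cos_of_nonneg_of_le_pi (x := 0) (y := 1 / z ^ 17) le_rfl
        (by linarith [Real.pi_gt_three]) h3
      simpa using this
    unfold prof
    linarith

/-- Scale of the jumps. -/
noncomputable def c0 : ℝ := (KK ^ 17)⁻¹

theorem c0_pos : 0 < c0 := by
  have := KK_pos
  unfold c0; positivity

/-- The jump at height `y`. -/
noncomputable def J (y : ℝ) : ℝ := c0 / y ^ 17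

theorem J_measurable : Measurable J := measurable_const.div (measurable_id.pow_const 17)

theorem J_neg (y : ℝ) : J (-y) = - J y := by
  unfold J
  rw [Odd.neg_pow (by decide), div_neg]

theorem abs_J {y : ℝ} (hy : 1 ≤ |y|) : |J y| ≤ 2 * c0 * (1 + y ^ 2)⁻¹ := by
  unfold J
  rw [abs_div, abs_of_pos c0_pos, abs_pow, div_eq_mul_inv]
  have := mul_le_mul_of_nonneg_left (inv_bound hy (n := 17) (by norm_num)) c0_pos.le
  linarith

theorem expJ_measurable (ξ : ℝ) :
    Measurable fun y => Complex.exp (((J y * ξ : ℝ) : ℂ) * Complex.I) - 1 :=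
  (Complex.measurable_exp.comp ((Complex.measurable_ofReal.comp
    (J_measurable.mul_const _)).mul_const _)).sub_const _

theorem norm_exp_sub_one_le (u : ℝ) : ‖Complex.exp ((u : ℂ) * Complex.I) - 1‖ ≤ |u| := by
  have := Real.norm_exp_I_mul_ofReal_sub_one_le (x := u)
  rw [mul_comm] at this
  exact this

theorem norm_exp_sub_one_le_two (u : ℝ) : ‖Complex.exp ((u : ℂ) * Complex.I) - 1‖ ≤ 2 := by
  calc ‖Complex.exp ((u : ℂ) * Complex.I) - 1‖ ≤ ‖Complex.exp ((u : ℂ) * Complex.I)‖ + ‖(1 : ℂ)‖ :=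
        norm_sub_le _ _
    _ = 2 := by rw [Complex.norm_exp_ofReal_mul_I]; norm_num

theorem expJ_norm_le (ξ y : ℝ) : ‖Complex.exp (((J y * ξ : ℝ) : ℂ) * Complex.I) - 1‖
    ≤ (4 + 2 * c0 * |ξ|) * (1 + y ^ 2)⁻¹ := by
  have hp : 0 ≤ (1 + y ^ 2)⁻¹ := by positivity
  rcases le_total |y| 1 with h | h
  · have h1 := norm_exp_sub_one_le_two (J y * ξ)
    have h2 := small_bound h
    have h3 : 0 ≤ 2 * c0 * |ξ| * (1 + y ^ 2)⁻¹ := by
      have := c0_pos; positivity
    linarith
  · have h1 := norm_exp_sub_one_le (J y * ξ)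
    rw [abs_mul] at h1
    have h2 := mul_le_mul_of_nonneg_right (abs_J h) (abs_nonneg ξ)
    nlinarith

theorem expJ_integrable (ξ : ℝ) :
    Integrable fun y => Complex.exp (((J y * ξ : ℝ) : ℂ) * Complex.I) - 1 := by
  refine Integrable.mono' (integrable_inv_one_add_sq.const_mul (4 + 2 * c0 * |ξ|))
    (expJ_measurable ξ).aestronglyMeasurable ?_
  exact Eventually.of_forall fun y => expJ_norm_le ξ y

theorem cos_integral (ξ : ℝ) : ∫ y, (1 - Real.cos (J y * ξ)) = |ξ| ^ ((1 : ℝ) / 17) := by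
  rcases eq_or_ne ξ 0 with rfl | hξ
  · simp [Real.zero_rpow]
  · have hx : 0 < |ξ| := abs_pos.2 hξ
    have hK := KK_pos
    have hc := c0_pos
    set a : ℝ := (|ξ| * c0) ^ (-(1 : ℝ) / 17) with ha
    have hapos : 0 < a := by positivity
    have ha17 : a ^ 17 = (|ξ| * c0)⁻¹ := by
      rw [ha, ← Real.rpow_natCast, ← Real.rpow_mul (by positivity)]
      norm_num
      rw [Real.rpow_neg (by positivity), Real.rpow_one, mul_inv]
      ring
    have h1 : ∀ y, 1 - Real.cos (J y * ξ) = prof (a * y) := by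
      intro y
      unfold prof J
      congr 1
      rw [mul_pow, ha17]
      rw [show c0 / y ^ 17 * ξ = ξ * (c0 / y ^ 17) by ring]
      have h2 : 1 / ((|ξ| * c0)⁻¹ * y ^ 17) = |ξ| * (c0 / y ^ 17) := by
        rw [one_div, mul_inv, inv_inv]; ring
      rw [h2]
      rcases abs_choice ξ with h | h
      · rw [h]
      · rw [h, neg_mul, Real.cos_neg]
    simp_rw [h1]
    rw [Measure.integral_comp_mul_left, smul_eq_mul]
    have h3 : |a⁻¹| = (|ξ| * c0) ^ ((1 : ℝ) / 17) := by
      rw [abs_of_pos (by positivity), ha, ← Real.rpow_neg (by positivity)]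
      norm_num
    rw [h3, Real.mul_rpow hx.le hc.le]
    have h4 : c0 ^ ((1 : ℝ) / 17) = KK⁻¹ := by
      unfold c0
      rw [← inv_pow, ← Real.rpow_natCast, ← Real.rpow_mul (by positivity)]
      norm_num
    rw [h4]
    change |ξ| ^ ((1 : ℝ) / 17) * KK⁻¹ * KK = _
    field_simp

theorem expJ_integral (ξ : ℝ) :
    ∫ y, (Complex.exp (((J y * ξ : ℝ) : ℂ) * Complex.I) - 1)
      = ((-(|ξ| ^ ((1 : ℝ) / 17)) : ℝ) : ℂ) := by
  have hi := expJ_integrable ξ
  have hre : (∫ y, (Complex.exp (((J y * ξ : ℝ) : ℂ) * Complex.I) - 1)).re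
      = -(|ξ| ^ ((1 : ℝ) / 17)) := by
    have h1 := integral_re (𝕜 := ℂ) hi
    simp only [RCLike.re_to_complex] at h1
    rw [← h1, ← cos_integral ξ, ← integral_neg]
    congr 1
    funext y
    rw [Complex.sub_re, Complex.exp_ofReal_mul_I_re]
    simp
  have him : (∫ y, (Complex.exp (((J y * ξ : ℝ) : ℂ) * Complex.I) - 1)).im = 0 := by
    have h1 := integral_im (𝕜 := ℂ) hi
    simp only [RCLike.im_to_complex] at h1
    rw [← h1]
    have h2 : ∀ y, (Complex.exp (((J y * ξ : ℝ) : ℂ) * Complex.I) - 1).im = Real.sin (J y * ξ) := by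
      intro y
      rw [Complex.sub_im, Complex.exp_ofReal_mul_I_im]
      simp
    simp_rw [h2]
    have h3 : ∫ y, Real.sin (J y * ξ) = ∫ y, Real.sin (J (-y) * ξ) :=
      (integral_neg_eq_self (fun y => Real.sin (J y * ξ)) volume).symm
    have h4 : ∀ y, Real.sin (J (-y) * ξ) = - Real.sin (J y * ξ) := by
      intro y
      rw [J_neg, neg_mul, Real.sin_neg]
    simp_rw [h4] at h3
    rw [integral_neg] at h3
    linarith
  apply Complex.ext
  · rw [hre, Complex.ofReal_re]
  · rw [him, Complex.ofReal_im]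

end Pool.Agent.X33.ST
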