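import Pool.Agent.X33.ST.Proc

/-!
# Law and paths of the process
-/

set_option autoImplicit false

open MeasureTheory ProbabilityTheory Filter Topology Set
open scoped ENNReal NNReal

namespace Pool.Agent.X33.ST

theorem singleChar {s t : ℝ} (hs : 0 ≤ s) (hst : s ≤ t) (ξ : ℝ) :
    ∫ ω, Complex.exp (((ξ * (X t ω - X s ω) : ℝ) : ℂ) * Complex.I) ∂PP
      = ((Real.exp (-(t - s) * |ξ| ^ ((1 : ℝ) / 17)) : ℝ) : ℂ) := by
  have hm : Monotone (![s, t] : Fin (1 + 1) → ℝ) := by
    intro i j hij
    fin_cases i <;> fin_cases j <;> simp_all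
  have h := jointChar (n := 1) (t := ![s, t]) (by simpa using hs) hm (fun _ => ξ)
  simpa using h

theorem X_zero (ω : Om) : X 0 ω = 0 := by
  unfold X
  have : ∀ q, term (fun p => J p.1 * ind 0 0 p.2) ω q = 0 := by
    intro q
    unfold term
    have h : ind 0 0 ((ω q.1).2 q.2).2 = 0 := by
      unfold ind
      exact if_neg (fun h => absurd h.1 (not_lt.2 h.2))
    split_ifs with h1
    · simp only
      rw [h, mul_zero]
    · rfl
  simp [this]

theorem indep {n : ℕ} {t : Fin (n + 1) → ℝ} (h0 : 0 ≤ t 0) (hm : StrictMono t) :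
    iIndepFun (fun (i : Fin n) (ω : Om) => X (t i.succ) ω - X (t i.castSucc) ω) PP := by
  have hmeas : ∀ i : Fin n, Measurable fun ω => X (t i.succ) ω - X (t i.castSucc) ω := fun i =>
    (X_measurable _).sub (X_measurable _)
  rw [iIndepFun_iff_charFun_pi fun i => (hmeas i).aemeasurable]
  intro ξ
  have hmv : Measurable fun ω => (WithLp.toLp 2 (fun i : Fin n => X (t i.succ) ω - X (t i.castSucc) ω)) := by
    have := measurable_pi_iff.2 hmeas
    fun_prop
  rw [charFun_apply, integral_map hmv.aemeasurable (by fun_prop)]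
  have h1 := jointChar h0 hm.monotone (fun i => ξ i)
  have h2 : ∀ ω, ((∑ l : Fin n, ξ l * (X (t l.succ) ω - X (t l.castSucc) ω) : ℝ) : ℂ)
      = ((inner ℝ (WithLp.toLp 2 (fun i : Fin n => X (t i.succ) ω - X (t i.castSucc) ω)) ξ : ℝ) : ℂ) := by
    intro ω
    congr 1
  simp_rw [h2] at h1
  rw [h1]
  refine Finset.prod_congr rfl fun i _ => ?_
  rw [charFun_apply_real, integral_map (hmeas i).aemeasurable (by fun_prop)]
  rw [← singleChar (t_nonneg h0 hm.monotone _) (hm.monotone (Fin.castSucc_lt_succ (i := i)).le) (ξ i)]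
  congr 1
  funext ω
  push_cast
  rfl

theorem term_ind_bound {ω : Om} {t s : ℝ} (hs : s ≤ t) (q : Ix × ℕ) :
    ‖term (fun p => J p.1 * ind 0 s p.2) ω q‖ ≤ ‖term (fun p => J p.1 * ind 0 t p.2) ω q‖ := by
  unfold term
  split_ifs with h
  · simp only
    rw [norm_mul, norm_mul]
    apply mul_le_mul_of_nonneg_left _ (norm_nonneg _)
    unfold ind
    by_cases h1 : 0 < ((ω q.1).2 q.2).2 ∧ ((ω q.1).2 q.2).2 ≤ s
    · rw [if_pos h1, if_pos ⟨h1.1, h1.2.trans hs⟩]
    · rw [if_neg h1]; simp
  · exact le_rfl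

theorem right_cont {ω : Om} (hω : Good ω) (t : ℝ) :
    ContinuousWithinAt (fun s => X s ω) (Set.Ici t) t := by
  unfold ContinuousWithinAt X
  refine tendsto_tsum_of_dominated_convergence
    (bound := fun q => ‖term (fun p => J p.1 * ind 0 (t + 1) p.2) ω q‖)
    (summable_ind hω le_rfl (t + 1)).norm ?_ ?_
  · intro q
    by_cases h : ((ω q.1).2 q.2).2 ≤ t
    · refine Tendsto.congr' ?_ tendsto_const_nhds
      filter_upwards [self_mem_nhdsWithin] with s hs
      unfold term
      split_ifs with h1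
      · simp only
        congr 1
        unfold ind
        by_cases h0 : 0 < ((ω q.1).2 q.2).2
        · rw [if_pos ⟨h0, h⟩, if_pos ⟨h0, h.trans hs⟩]
        · rw [if_neg (fun h => h0 h.1), if_neg (fun h => h0 h.1)]
      · rfl
    · refine Tendsto.congr' ?_ tendsto_const_nhds
      push Not at h
      filter_upwards [mem_nhdsWithin_of_mem_nhds (Iio_mem_nhds h)] with s hs
      unfold term
      split_ifs with h1
      · simp only
        congr 1
        unfold ind
        rw [if_neg (fun h' => absurd h'.2 (not_le.2 h)), if_neg (fun h' => absurd h'.2 (not_le.2 hs))]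
      · rfl
  · filter_upwards [mem_nhdsWithin_of_mem_nhds (Iio_mem_nhds (lt_add_one t))] with s hs
    intro q
    exact term_ind_bound (le_of_lt hs) q

theorem left_lim {ω : Om} (hω : Good ω) (t : ℝ) :
    ∃ l : ℝ, Tendsto (fun s => X s ω) (𝓝[<] t) (𝓝 l) := by
  refine ⟨∑' q, term (fun p => J p.1 * (if 0 < p.2 ∧ p.2 < t then 1 else 0)) ω q, ?_⟩
  unfold X
  refine tendsto_tsum_of_dominated_convergence
    (bound := fun q => ‖term (fun p => J p.1 * ind 0 t p.2) ω q‖)
    (summable_ind hω le_rfl t).norm ?_ ?_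
  · intro q
    by_cases h : ((ω q.1).2 q.2).2 < t
    · refine Tendsto.congr' ?_ tendsto_const_nhds
      filter_upwards [mem_nhdsWithin_of_mem_nhds (Ioi_mem_nhds h)] with s hs
      unfold term
      split_ifs with h1
      · simp only
        congr 1
        unfold ind
        by_cases h0 : 0 < ((ω q.1).2 q.2).2
        · rw [if_pos ⟨h0, h⟩, if_pos ⟨h0, le_of_lt hs⟩]
        · rw [if_neg (fun h => h0 h.1), if_neg (fun h => h0 h.1)]
      · rfl
    · refine Tendsto.congr' ?_ tendsto_const_nhds
      filter_upwards [self_mem_nhdsWithin] with s hs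
      unfold term
      split_ifs with h1
      · simp only
        congr 1
        unfold ind
        rw [if_neg (fun h' => h h'.2), if_neg (fun h' => h (lt_of_le_of_lt h'.2 hs))]
      · rfl
  · filter_upwards [self_mem_nhdsWithin] with s hs
    intro q
    exact term_ind_bound (le_of_lt hs) q

end Pool.Agent.X33.ST
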