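import Pool.Agent.X33.ST.Ae
import Pool.Agent.X33.ST.Expo

/-!
# The process
-/

set_option autoImplicit false

open MeasureTheory ProbabilityTheory Filter Topology Set
open scoped ENNReal NNReal

namespace Pool.Agent.X33.ST

/-- Weights of the atoms. -/
noncomputable def wq (ω : Om) (q : Ix × ℕ) : ℝ :=
  if q.2 < (ω q.1).1 then w1 q.1.1 * w1 q.1.2 else 0

theorem wq_nonneg (ω : Om) (q : Ix × ℕ) : 0 ≤ wq ω q := by
  unfold wq
  split_ifs
  · have := w1_pos q.1.1
    have := w1_pos q.1.2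
    positivity
  · exact le_rfl

/-- The sample points with good properties. -/
structure Good (ω : Om) : Prop where
  mem : ∀ q : Ix × ℕ, (ω q.1).2 q.2 ∈ sq q.1
  sum : Summable fun c : Ix => ((ω c).1 : ℝ) * (w1 c.1 * w1 c.2)

theorem ae_good : ∀ᵐ ω ∂PP, Good ω := by
  filter_upwards [ae_mem, ae_weight] with ω h1 h2
  exact ⟨h1, h2⟩

theorem hasSum_row (N : ℕ) (v : ℝ) : HasSum (fun j : ℕ => if j < N then v else 0) ((N : ℝ) * v) := by
  have h1 : ∑ j ∈ Finset.range N, (if j < N then v else 0) = (N : ℝ) * v := by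
    rw [Finset.sum_congr rfl (g := fun _ => v) fun j hj => if_pos (Finset.mem_range.1 hj)]
    simp
  rw [← h1]
  apply hasSum_sum_of_ne_finset_zero
  intro j hj
  exact if_neg (by simpa using hj)

theorem summable_wq {ω : Om} (h : Good ω) : Summable (wq ω) := by
  rw [summable_prod_of_nonneg (wq_nonneg ω)]
  constructor
  · intro c
    exact (hasSum_row (ω c).1 (w1 c.1 * w1 c.2)).summable
  · refine h.sum.congr fun c => ?_
    exact ((hasSum_row (ω c).1 (w1 c.1 * w1 c.2)).tsum_eq).symm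

theorem abs_y {k : ℤ} {y : ℝ} (hy : y ∈ Ico (k : ℝ) (k + 1)) (h0 : k ≠ 0) (h1 : k ≠ -1) :
    (1 + |(k : ℝ)|) / 3 ≤ |y| := by
  obtain ⟨hy1, hy2⟩ := hy
  rcases lt_or_ge 0 k with h | h
  · have hk : (1 : ℝ) ≤ k := by exact_mod_cast h
    rw [abs_of_nonneg (by linarith : (0 : ℝ) ≤ k), abs_of_nonneg (by linarith : (0 : ℝ) ≤ y)]
    linarith
  · have hk : k ≤ -2 := by omega
    have hk' : (k : ℝ) ≤ -2 := by exact_mod_cast hk
    rw [abs_of_nonpos (by linarith : (k : ℝ) ≤ 0), abs_of_nonpos (by linarith : y ≤ 0)]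
    linarith

/-- Constant in the bound of the jumps. -/
noncomputable def DD : ℝ := c0 * 3 ^ 17

theorem DD_pos : 0 < DD := by have := c0_pos; unfold DD; positivity

theorem J_bound {k : ℤ} {y : ℝ} (hy : y ∈ Ico (k : ℝ) (k + 1)) (h0 : k ≠ 0) (h1 : k ≠ -1) :
    |J y| ≤ DD * ((1 + |(k : ℝ)|) ^ 17)⁻¹ := by
  have h2 := abs_y hy h0 h1
  have h3 : 0 < (1 + |(k : ℝ)|) / 3 := by positivity
  unfold J DD
  rw [abs_div, abs_of_pos c0_pos, abs_pow, div_eq_mul_inv, mul_assoc]
  apply mul_le_mul_of_nonneg_left _ c0_pos.le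
  have h4 : ((1 + |(k : ℝ)|) / 3) ^ 17 ≤ |y| ^ 17 := pow_le_pow_left₀ h3.le h2 17
  calc (|y| ^ 17)⁻¹ ≤ (((1 + |(k : ℝ)|) / 3) ^ 17)⁻¹ := inv_anti₀ (by positivity) h4
    _ = 3 ^ 17 * ((1 + |(k : ℝ)|) ^ 17)⁻¹ := by
        rw [div_pow, inv_div, div_eq_mul_inv]

theorem J_bound_w {k : ℤ} {y : ℝ} (hy : y ∈ Ico (k : ℝ) (k + 1)) (h0 : k ≠ 0) (h1 : k ≠ -1) :
    |J y| ≤ DD * w1 k := by
  refine (J_bound hy h0 h1).trans (mul_le_mul_of_nonneg_left ?_ DD_pos.le)
  unfold w1
  apply inv_anti₀ (by positivity)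
  exact pow_le_pow_right₀ (by linarith [abs_nonneg (k : ℝ)]) (by norm_num)

theorem summable_term {ω : Om} (hω : Good ω) (h : ℝ → ℝ) (B T : ℝ) (hB : ∀ τ, |h τ| ≤ B)
    (hT : ∀ τ, ¬ (0 < τ ∧ τ ≤ T) → h τ = 0) :
    Summable (term (fun p => J p.1 * h p.2) ω) := by
  have hB0 : 0 ≤ B := (abs_nonneg _).trans (hB 0)
  refine Summable.of_norm_bounded_eventually
    (g := fun q => (B * DD * (1 + |T|) ^ 2) * wq ω q) ((summable_wq hω).mul_left _) ?_
  have hfin : (⋃ c ∈ (({0, -1} : Set ℤ) ×ˢ Set.Icc (0 : ℤ) ⌈T⌉ : Set Ix),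
      (Prod.mk c) '' (Set.Iio (ω c).1)).Finite := by
    apply Set.Finite.biUnion
    · exact (Set.toFinite _).prod (Set.finite_Icc _ _)
    · intro c _
      exact (Set.finite_Iio _).image _
  rw [eventually_cofinite]
  refine hfin.subset ?_
  rintro ⟨c, j⟩ hq
  rw [mem_ofPred_eq] at hq
  by_contra hcon
  apply hq
  have hconst : 0 ≤ B * DD * (1 + |T|) ^ 2 := by have := DD_pos; positivity
  have hmem := hω.mem (c, j)
  simp only at hmem
  obtain ⟨hm1, hm2⟩ := hmem
  by_cases ha : j < (ω c).1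
  · by_cases hτ : 0 < ((ω c).2 j).2 ∧ ((ω c).2 j).2 ≤ T
    · have hn0 : 0 ≤ c.2 := by
        have h1 : (0 : ℝ) < c.2 + 1 := lt_of_lt_of_le hτ.1 hm2.2
        have h2 : (0 : ℤ) < c.2 + 1 := by exact_mod_cast h1
        omega
      have hnT : (c.2 : ℝ) < T := lt_of_lt_of_le hm2.1 hτ.2
      have hk : c.1 ≠ 0 ∧ c.1 ≠ -1 := by
        by_contra hk
        apply hcon
        rw [mem_iUnion₂]
        refine ⟨c, ⟨?_, hn0, ?_⟩, ⟨j, ha, rfl⟩⟩
        · simp only [mem_insert_iff, mem_singleton_iff]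
          tauto
        · have : (c.2 : ℝ) ≤ ⌈T⌉ := hnT.le.trans (Int.le_ceil T)
          exact_mod_cast this
      rw [term, if_pos ha, wq, if_pos ha, Real.norm_eq_abs, abs_mul]
      have h3 := J_bound_w hm1 hk.1 hk.2
      have h4 : 1 ≤ (1 + |T|) ^ 2 * w1 c.2 := by
        unfold w1
        have hc2 : (0 : ℝ) ≤ c.2 := by exact_mod_cast hn0
        rw [abs_of_nonneg hc2, ← div_eq_mul_inv, one_le_div (by positivity)]
        apply pow_le_pow_left₀ (by positivity)
        have := le_abs_self T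
        linarith
      have hw := w1_pos c.1
      calc |J ((ω c).2 j).1| * |h ((ω c).2 j).2| ≤ (DD * w1 c.1) * B :=
            mul_le_mul h3 (hB _) (abs_nonneg _) (by have := DD_pos; positivity)
        _ = (B * DD * w1 c.1) * 1 := by ring
        _ ≤ (B * DD * w1 c.1) * ((1 + |T|) ^ 2 * w1 c.2) := by
            apply mul_le_mul_of_nonneg_left h4
            have := DD_pos; positivity
        _ = _ := by ring
    · rw [term, if_pos ha, hT _ hτ, mul_zero, norm_zero]
      exact mul_nonneg hconst (wq_nonneg _ _)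
  · rw [term, if_neg ha, norm_zero]
    exact mul_nonneg hconst (wq_nonneg _ _)

/-- Indicator of `(a, b]`. -/
noncomputable def ind (a b τ : ℝ) : ℝ := if a < τ ∧ τ ≤ b then 1 else 0

theorem ind_abs (a b τ : ℝ) : |ind a b τ| ≤ 1 := by
  unfold ind; split_ifs <;> simp

theorem ind_measurable (a b : ℝ) : Measurable (ind a b) := by
  unfold ind
  exact Measurable.ite measurableSet_Ioc measurable_const measurable_const

theorem term_measurable (g : ℝ × ℝ → ℝ) (hg : Measurable g) (q : Ix × ℕ) :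
    Measurable fun ω : Om => term g ω q := by
  unfold term
  refine Measurable.ite ?_ ?_ measurable_const
  · have : Measurable fun ω : Om => (ω q.1).1 := measurable_fst.comp (measurable_pi_apply q.1)
    exact this (measurableSet_Ioi (a := q.2))
  · exact hg.comp ((measurable_pi_apply q.2).comp (measurable_snd.comp (measurable_pi_apply q.1)))

/-- **The process.** -/
noncomputable def X (t : ℝ) (ω : Om) : ℝ := ∑' q, term (fun p => J p.1 * ind 0 t p.2) ω q

theorem X_measurable (t : ℝ) : Measurable (X t) := by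
  unfold X
  apply Measurable.tsum
  intro q
  exact term_measurable _ ((J_measurable.comp measurable_fst).mul
    ((ind_measurable 0 t).comp measurable_snd)) q

theorem summable_ind {ω : Om} (hω : Good ω) {a : ℝ} (ha : 0 ≤ a) (b : ℝ) :
    Summable (term (fun p => J p.1 * ind a b p.2) ω) := by
  refine summable_term hω (ind a b) 1 b (ind_abs a b) fun τ hτ => ?_
  unfold ind
  rw [if_neg]
  rintro ⟨h1, h2⟩
  exact hτ ⟨by linarith, h2⟩

theorem ind_sub {a b : ℝ} (ha : 0 ≤ a) (hab : a ≤ b) (τ : ℝ) :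
    ind 0 b τ - ind 0 a τ = ind a b τ := by
  unfold ind
  rcases lt_or_ge 0 τ with h0 | h0
  · rcases le_or_gt τ a with h1 | h1
    · rw [if_pos (show 0 < τ ∧ τ ≤ b from ⟨h0, h1.trans hab⟩),
        if_pos (show 0 < τ ∧ τ ≤ a from ⟨h0, h1⟩),
        if_neg (show ¬ (a < τ ∧ τ ≤ b) from fun h => absurd h.1 (not_lt.2 h1)), sub_self]
    · rw [if_neg (show ¬ (0 < τ ∧ τ ≤ a) from fun h => absurd h.2 (not_le.2 h1)), sub_zero]
      by_cases hb : τ ≤ b
      · rw [if_pos ⟨h0, hb⟩, if_pos ⟨h1, hb⟩]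
      · rw [if_neg (fun h => hb h.2), if_neg (fun h => hb h.2)]
  · rw [if_neg (show ¬ (0 < τ ∧ τ ≤ b) from fun h => absurd h.1 (not_lt.2 h0)),
      if_neg (show ¬ (0 < τ ∧ τ ≤ a) from fun h => absurd h.1 (not_lt.2 h0)),
      if_neg (show ¬ (a < τ ∧ τ ≤ b) from fun h => absurd (ha.trans_lt h.1) (not_lt.2 h0)), sub_self]

theorem X_sub {ω : Om} (hω : Good ω) {a b : ℝ} (ha : 0 ≤ a) (hab : a ≤ b) :
    X b ω - X a ω = ∑' q, term (fun p => J p.1 * ind a b p.2) ω q := by
  unfold X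
  rw [← (summable_ind hω le_rfl b).tsum_sub (summable_ind hω le_rfl a)]
  congr 1
  funext q
  unfold term
  split_ifs with h
  · simp only
    rw [← mul_sub, ind_sub ha hab]
  · rw [sub_self]

/-- Step function of the coefficients. -/
noncomputable def stp {n : ℕ} (t : Fin (n + 1) → ℝ) (ξ : Fin n → ℝ) (τ : ℝ) : ℝ :=
  ∑ l : Fin n, ξ l * ind (t l.castSucc) (t l.succ) τ

theorem t_nonneg {n : ℕ} {t : Fin (n + 1) → ℝ} (h0 : 0 ≤ t 0) (hm : Monotone t) (l : Fin (n + 1)) :
    0 ≤ t l := h0.trans (hm (Fin.zero_le l))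

theorem lin {n : ℕ} {t : Fin (n + 1) → ℝ} (h0 : 0 ≤ t 0) (hm : Monotone t) (ξ : Fin n → ℝ)
    {ω : Om} (hω : Good ω) :
    ∑ l : Fin n, ξ l * (X (t l.succ) ω - X (t l.castSucc) ω)
      = ∑' q, term (fun p => J p.1 * stp t ξ p.2) ω q := by
  have h1 : ∀ l : Fin n, ξ l * (X (t l.succ) ω - X (t l.castSucc) ω)
      = ∑' q, ξ l * term (fun p => J p.1 * ind (t l.castSucc) (t l.succ) p.2) ω q := by
    intro l
    rw [X_sub hω (t_nonneg h0 hm _) (hm (Fin.castSucc_lt_succ (i := l)).le), tsum_mul_left]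
  rw [Finset.sum_congr rfl fun l _ => h1 l]
  rw [← Summable.tsum_finsetSum]
  · congr 1
    funext q
    unfold term
    split_ifs with h
    · unfold stp
      simp only
      rw [Finset.mul_sum]
      refine Finset.sum_congr rfl fun l _ => ?_
      ring
    · simp
  · intro l _
    exact (summable_ind hω (t_nonneg h0 hm _) _).mul_left _

theorem stp_measurable {n : ℕ} (t : Fin (n + 1) → ℝ) (ξ : Fin n → ℝ) : Measurable (stp t ξ) := by
  unfold stp
  exact Finset.measurable_fun_sum _ fun l _ => (ind_measurable _ _).const_mul _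

theorem ind_unique {n : ℕ} {t : Fin (n + 1) → ℝ} (hm : Monotone t) {τ : ℝ} {l l' : Fin n}
    (h1 : t l.castSucc < τ ∧ τ ≤ t l.succ) (h2 : t l'.castSucc < τ ∧ τ ≤ t l'.succ) : l = l' := by
  rcases lt_trichotomy l l' with h | h | h
  · have : t l.succ ≤ t l'.castSucc := hm (by
      rw [Fin.le_iff_val_le_val]; simp; exact h)
    linarith [h1.1, h1.2, h2.1, h2.2]
  · exact h
  · have : t l'.succ ≤ t l.castSucc := hm (by
      rw [Fin.le_iff_val_le_val]; simp; exact h)
    linarith [h1.1, h1.2, h2.1, h2.2]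

theorem expand {n : ℕ} {t : Fin (n + 1) → ℝ} (hm : Monotone t) (ξ : Fin n → ℝ) (y τ : ℝ) :
    Complex.exp (((J y * stp t ξ τ : ℝ) : ℂ) * Complex.I) - 1
      = ∑ l : Fin n, (Complex.exp (((J y * ξ l : ℝ) : ℂ) * Complex.I) - 1)
          * ((ind (t l.castSucc) (t l.succ) τ : ℝ) : ℂ) := by
  by_cases h : ∃ l : Fin n, t l.castSucc < τ ∧ τ ≤ t l.succ
  · obtain ⟨l, hl⟩ := h
    have h1 : ∀ l' : Fin n, l' ≠ l → ind (t l'.castSucc) (t l'.succ) τ = 0 := by
      intro l' hne
      unfold ind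
      rw [if_neg]
      intro h2
      exact hne (ind_unique hm h2 hl)
    have h2 : ind (t l.castSucc) (t l.succ) τ = 1 := by
      unfold ind; rw [if_pos hl]
    have h3 : stp t ξ τ = ξ l := by
      unfold stp
      rw [Finset.sum_eq_single l]
      · rw [h2, mul_one]
      · intro l' _ hne
        rw [h1 l' hne, mul_zero]
      · intro h; exact absurd (Finset.mem_univ l) h
    rw [Finset.sum_eq_single l]
    · rw [h2, h3]; simp
    · intro l' _ hne
      rw [h1 l' hne]; simp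
    · intro h; exact absurd (Finset.mem_univ l) h
  · push Not at h
    have h1 : ∀ l' : Fin n, ind (t l'.castSucc) (t l'.succ) τ = 0 := by
      intro l'
      unfold ind
      rw [if_neg]
      rintro ⟨h2, h3⟩
      exact absurd h3 (not_le.2 (h l' h2))
    have h3 : stp t ξ τ = 0 := by
      unfold stp
      exact Finset.sum_eq_zero fun l _ => by rw [h1 l, mul_zero]
    rw [h3, Finset.sum_eq_zero fun l _ => by rw [h1 l]; simp]
    simp

theorem ind_integrable (a b : ℝ) : Integrable (fun τ => ((ind a b τ : ℝ) : ℂ)) := by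
  have h1 : (fun τ => ((ind a b τ : ℝ) : ℂ)) = (Ioc a b).indicator (fun _ => (1 : ℂ)) := by
    funext τ
    unfold ind
    by_cases h : a < τ ∧ τ ≤ b
    · rw [if_pos h, Set.indicator_of_mem (show τ ∈ Ioc a b from h)]; simp
    · rw [if_neg h, Set.indicator_of_notMem (show τ ∉ Ioc a b from h)]; simp
  rw [h1, integrable_indicator_iff measurableSet_Ioc]
  exact integrableOn_const (by simp) 

theorem ind_integral {a b : ℝ} (hab : a ≤ b) : ∫ τ, ((ind a b τ : ℝ) : ℂ) = ((b - a : ℝ) : ℂ) := by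
  have h1 : (fun τ => ((ind a b τ : ℝ) : ℂ)) = (Ioc a b).indicator (fun _ => (1 : ℂ)) := by
    funext τ
    unfold ind
    by_cases h : a < τ ∧ τ ≤ b
    · rw [if_pos h, Set.indicator_of_mem (show τ ∈ Ioc a b from h)]; simp
    · rw [if_neg h, Set.indicator_of_notMem (show τ ∉ Ioc a b from h)]; simp
  rw [h1, integral_indicator measurableSet_Ioc]
  simp [Measure.real, Real.volume_Ioc, ENNReal.toReal_ofReal (sub_nonneg.2 hab)]

theorem jointChar {n : ℕ} {t : Fin (n + 1) → ℝ} (h0 : 0 ≤ t 0) (hm : Monotone t)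
    (ξ : Fin n → ℝ) :
    ∫ ω, Complex.exp (((∑ l : Fin n, ξ l * (X (t l.succ) ω - X (t l.castSucc) ω) : ℝ) : ℂ)
        * Complex.I) ∂PP
      = ∏ l : Fin n, ((Real.exp (-(t l.succ - t l.castSucc) * |ξ l| ^ ((1 : ℝ) / 17)) : ℝ) : ℂ) := by
  have hg : Measurable fun p : ℝ × ℝ => J p.1 * stp t ξ p.2 :=
    (J_measurable.comp measurable_fst).mul ((stp_measurable t ξ).comp measurable_snd)
  have hsum : ∀ᵐ ω ∂PP, Summable (term (fun p : ℝ × ℝ => J p.1 * stp t ξ p.2) ω) := by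
    filter_upwards [ae_good] with ω hω
    refine summable_term hω (stp t ξ) (∑ l : Fin n, |ξ l|) (t (Fin.last n)) ?_ ?_
    · intro τ
      unfold stp
      refine (Finset.abs_sum_le_sum_abs _ _).trans (Finset.sum_le_sum fun l _ => ?_)
      rw [abs_mul]
      calc |ξ l| * |ind (t l.castSucc) (t l.succ) τ| ≤ |ξ l| * 1 :=
            mul_le_mul_of_nonneg_left (ind_abs _ _ _) (abs_nonneg _)
        _ = |ξ l| := mul_one _
    · intro τ hτ
      unfold stp
      refine Finset.sum_eq_zero fun l _ => ?_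
      unfold ind
      rw [if_neg, mul_zero]
      rintro ⟨h1, h2⟩
      apply hτ
      exact ⟨lt_of_le_of_lt (t_nonneg h0 hm _) h1, h2.trans (hm (Fin.le_last _))⟩
  have hparts : ∀ l : Fin n, Integrable (fun x : ℝ × ℝ =>
      (Complex.exp (((J x.1 * ξ l : ℝ) : ℂ) * Complex.I) - 1)
          * ((ind (t l.castSucc) (t l.succ) x.2 : ℝ) : ℂ)) volume := by
    intro l
    rw [Measure.volume_eq_prod]
    exact (expJ_integrable (ξ l)).mul_prod (ind_integrable _ _)
  have hexp : (fun x : ℝ × ℝ => Complex.exp (((J x.1 * stp t ξ x.2 : ℝ) : ℂ) * Complex.I) - 1)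
      = fun x : ℝ × ℝ => ∑ l : Fin n, (Complex.exp (((J x.1 * ξ l : ℝ) : ℂ) * Complex.I) - 1)
          * ((ind (t l.castSucc) (t l.succ) x.2 : ℝ) : ℂ) := by
    funext x
    exact expand hm ξ x.1 x.2
  have hint : Integrable (fun x : ℝ × ℝ =>
      Complex.exp (((J x.1 * stp t ξ x.2 : ℝ) : ℂ) * Complex.I) - 1) volume := by
    rw [hexp]
    exact integrable_finsetSum _ fun l _ => hparts l
  have h1 := campbell (fun p : ℝ × ℝ => J p.1 * stp t ξ p.2) hg hsum hint
  have h2 : ∫ ω, Complex.exp (((∑ l : Fin n, ξ l * (X (t l.succ) ω - X (t l.castSucc) ω) : ℝ) : ℂ)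
        * Complex.I) ∂PP
      = ∫ ω, Complex.exp (((∑' q, term (fun p : ℝ × ℝ => J p.1 * stp t ξ p.2) ω q : ℝ) : ℂ)
        * Complex.I) ∂PP := by
    refine integral_congr_ae ?_
    filter_upwards [ae_good] with ω hω
    rw [lin h0 hm ξ hω]
  rw [h2, h1, hexp, integral_finsetSum _ fun l _ => hparts l, Complex.exp_sum]
  refine Finset.prod_congr rfl fun l _ => ?_
  rw [Measure.volume_eq_prod, integral_prod_mul
    (fun y : ℝ => Complex.exp (((J y * ξ l : ℝ) : ℂ) * Complex.I) - 1)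
    (fun τ : ℝ => ((ind (t l.castSucc) (t l.succ) τ : ℝ) : ℂ)),
    expJ_integral, ind_integral (hm (Fin.castSucc_lt_succ (i := l)).le)]
  rw [Complex.ofReal_exp]
  congr 1
  push_cast
  ring

end Pool.Agent.X33.ST
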